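import Pool.Agent.H664.EX.Stm

/-!
Project EX (helper664), job BND: growth of algebraic functions on the regions.
-/

set_option autoImplicit false

namespace Pool.Agent.H671.EX

open MvPolynomial Filter Topology Metric Pool.Agent.Q72.EG Pool.Agent.H664.EX

/-- an annular version of the regions -/
def SS (R : ℝ) : Set (Fin 2 → ℂ) :=
  {x | Real.log R / 2 ≤ ‖x 0‖ ∧ ‖x 0‖ ≤ 2 * Real.log R ^ 2 ∧ R / 2 ≤ ‖x 1‖ ∧ ‖x 1‖ ≤ 2 * R}

/-- the points `(R, x)` with `x ∈ SS R`, `R → ∞` -/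
def FF : Filter (ℝ × (Fin 2 → ℂ)) := comap Prod.fst atTop ⊓ 𝓟 {p | p.2 ∈ SS p.1}

theorem ev_iff {P : ℝ × (Fin 2 → ℂ) → Prop} :
    (∀ᶠ p in FF, P p) ↔ ∃ R₀ : ℝ, ∀ R : ℝ, R₀ ≤ R → ∀ x ∈ SS R, P (R, x) := by
  rw [FF, eventually_inf_principal, eventually_comap, eventually_atTop]
  constructor
  · rintro ⟨R₀, h⟩
    exact ⟨R₀, fun R hR x hx => h R hR (R, x) rfl hx⟩
  · rintro ⟨R₀, h⟩
    exact ⟨R₀, fun R hR p hp hx => by
      obtain ⟨S, x⟩ := p
      simp only at hp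
      subst hp
      exact h _ hR x hx⟩

theorem tR : Tendsto (fun p : ℝ × (Fin 2 → ℂ) => p.1) FF atTop :=
  tendsto_comap.mono_left inf_le_left

theorem evS : ∀ᶠ p in FF, p.2 ∈ SS p.1 :=
  (inf_le_right : FF ≤ _) (mem_principal_self _)

theorem evR (c : ℝ) : ∀ᶠ p in FF, c ≤ p.1 := tR.eventually (eventually_ge_atTop c)

theorem t0 : Tendsto (fun p : ℝ × (Fin 2 → ℂ) => ‖p.2 0‖) FF atTop := by
  refine tendsto_atTop_mono' FF (evS.mono fun p hp => hp.1) ?_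
  exact (Real.tendsto_log_atTop.comp tR).atTop_div_const (by norm_num)

theorem t1 : Tendsto (fun p : ℝ × (Fin 2 → ℂ) => ‖p.2 1‖) FF atTop := by
  refine tendsto_atTop_mono' FF (evS.mono fun p hp => hp.2.2.1) ?_
  exact tR.atTop_div_const (by norm_num)

theorem t01 (K : ℕ) : Tendsto (fun p : ℝ × (Fin 2 → ℂ) => ‖p.2 0‖ ^ K / ‖p.2 1‖) FF (𝓝 0) := by
  have h1 : Tendsto (fun p : ℝ × (Fin 2 → ℂ) => (2 ^ K * 2) * (Real.log p.1 ^ (2 * K) / p.1)) FF (𝓝 0) := by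
    have h2 := (Real.isLittleO_pow_log_id_atTop (n := 2 * K)).tendsto_div_nhds_zero
    have h3 := (h2.comp tR).const_mul ((2 : ℝ) ^ K * 2)
    rw [mul_zero] at h3
    exact h3
  refine squeeze_zero' (Eventually.of_forall fun p => by positivity) ?_ h1
  filter_upwards [evS, evR 1] with p hp hR
  have h2 : ‖p.2 0‖ ^ K ≤ (2 * Real.log p.1 ^ 2) ^ K := pow_le_pow_left₀ (norm_nonneg _) hp.2.1 K
  have h3 : 0 < p.1 := by linarith
  calc ‖p.2 0‖ ^ K / ‖p.2 1‖ ≤ (2 * Real.log p.1 ^ 2) ^ K / (p.1 / 2) := by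
        apply div_le_div₀ _ h2 (by positivity) hp.2.2.1
        positivity
    _ = (2 ^ K * 2) * (Real.log p.1 ^ (2 * K) / p.1) := by
        rw [mul_pow, ← pow_mul]
        field_simp

/-- upper bound -/
theorem upper (H : MvPolynomial (Fin 2) ℂ) : ∃ C : ℕ, ∀ᶠ p in FF, ‖eval p.2 H‖ ≤ p.1 ^ C := by
  induction H using MvPolynomial.induction_on with
  | C c =>
    refine ⟨1, ?_⟩
    filter_upwards [evR ‖c‖] with p hp
    rw [eval_C, pow_one]
    exact hp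
  | add f g hf hg =>
    obtain ⟨C, hC⟩ := hf
    obtain ⟨D, hD⟩ := hg
    refine ⟨max C D + 1, ?_⟩
    filter_upwards [hC, hD, evR 2] with p h1 h2 h3
    rw [map_add]
    have h4 : p.1 ^ C ≤ p.1 ^ (max C D) := pow_le_pow_right₀ (by linarith) (le_max_left _ _)
    have h5 : p.1 ^ D ≤ p.1 ^ (max C D) := pow_le_pow_right₀ (by linarith) (le_max_right _ _)
    have h6 : 0 ≤ p.1 ^ (max C D) := by positivity
    rw [pow_succ]
    calc ‖eval p.2 f + eval p.2 g‖ ≤ ‖eval p.2 f‖ + ‖eval p.2 g‖ := norm_add_le _ _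
      _ ≤ p.1 ^ (max C D) + p.1 ^ (max C D) := by linarith
      _ = p.1 ^ (max C D) * 2 := by ring
      _ ≤ _ := by gcongr
  | mul_X f i hf =>
    obtain ⟨C, hC⟩ := hf
    refine ⟨C + 2, ?_⟩
    have hlog := (Real.isLittleO_pow_log_id_atTop (n := 2)).tendsto_div_nhds_zero
    have hlog2 : ∀ᶠ R : ℝ in atTop, Real.log R ^ 2 ≤ R := by
      filter_upwards [hlog.eventually (eventually_le_nhds (b := 1) (by norm_num)),
        eventually_gt_atTop 0] with R h1 h2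
      simp only [id] at h1
      rwa [div_le_one h2] at h1
    filter_upwards [hC, evR 2, evS, tR.eventually hlog2] with p h1 h2 h3 h4
    rw [map_mul, eval_X, norm_mul, pow_add]
    have h5 : ‖p.2 i‖ ≤ p.1 ^ 2 := by
      have h6 : 2 * p.1 ≤ p.1 ^ 2 := by nlinarith
      fin_cases i
      · exact h3.2.1.trans (by linarith)
      · exact h3.2.2.2.trans h6
    gcongr

/-- the leading monomial for the order: first `t`, then `z` -/
theorem exists_lead (H : MvPolynomial (Fin 2) ℂ) (hH : H ≠ 0) :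
    ∃ m ∈ H.support, ∀ m' ∈ H.support, m' ≠ m → m' 1 < m 1 ∨ (m' 1 = m 1 ∧ m' 0 < m 0) := by
  classical
  have hne : H.support.Nonempty := by
    rwa [Finset.nonempty_iff_ne_empty, ne_eq, support_eq_empty]
  obtain ⟨m1, hm1, hmax1⟩ := H.support.exists_max_image (fun m => m 1) hne
  obtain ⟨m, hm, hmax⟩ := (H.support.filter fun m => m 1 = m1 1).exists_max_image (fun m => m 0)
    ⟨m1, Finset.mem_filter.2 ⟨hm1, rfl⟩⟩
  rw [Finset.mem_filter] at hm
  refine ⟨m, hm.1, fun m' hm' hne' => ?_⟩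
  rcases lt_or_eq_of_le (hmax1 m' hm') with h | h
  · left; rw [hm.2]; exact h
  · right
    refine ⟨h.trans hm.2.symm, ?_⟩
    refine lt_of_le_of_ne (hmax m' (Finset.mem_filter.2 ⟨hm', h⟩)) ?_
    intro h0
    apply hne'
    ext i
    fin_cases i
    · exact h0
    · exact h.trans hm.2.symm

theorem eval_two (H : MvPolynomial (Fin 2) ℂ) (x : Fin 2 → ℂ) :
    eval x H = ∑ m ∈ H.support, coeff m H * (x 0 ^ m 0 * x 1 ^ m 1) := by
  rw [eval_eq']
  refine Finset.sum_congr rfl fun m _ => ?_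
  rw [Fin.prod_univ_two]

theorem lim_lead (H : MvPolynomial (Fin 2) ℂ) (m : Fin 2 →₀ ℕ) (hm : m ∈ H.support)
    (hl : ∀ m' ∈ H.support, m' ≠ m → m' 1 < m 1 ∨ (m' 1 = m 1 ∧ m' 0 < m 0)) :
    Tendsto (fun p : ℝ × (Fin 2 → ℂ) => eval p.2 H / (p.2 0 ^ m 0 * p.2 1 ^ m 1)) FF
      (𝓝 (coeff m H)) := by
  classical
  have h1 : ∀ m' ∈ H.support, Tendsto (fun p : ℝ × (Fin 2 → ℂ) =>
      coeff m' H * (p.2 0 ^ m' 0 * p.2 1 ^ m' 1) / (p.2 0 ^ m 0 * p.2 1 ^ m 1)) FF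
      (𝓝 (if m' = m then coeff m H else 0)) := by
    intro m' hm'
    by_cases he : m' = m
    · subst he
      rw [if_pos rfl]
      refine tendsto_const_nhds.congr' ?_
      filter_upwards [t0.eventually (eventually_ge_atTop 1), t1.eventually (eventually_ge_atTop 1)]
        with p h0 h1
      have h2 : p.2 0 ≠ 0 := fun h => by rw [h, norm_zero] at h0; linarith
      have h3 : p.2 1 ≠ 0 := fun h => by rw [h, norm_zero] at h1; linarith
      field_simp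
    · rw [if_neg he, tendsto_zero_iff_norm_tendsto_zero]
      rcases hl m' hm' he with h | ⟨h, h'⟩
      · have h2 := (t01 (m' 0)).const_mul ‖coeff m' H‖
        rw [mul_zero] at h2
        refine squeeze_zero' (Eventually.of_forall fun p => norm_nonneg _) ?_ h2
        filter_upwards [t0.eventually (eventually_ge_atTop 1), t1.eventually (eventually_ge_atTop 1)]
          with p h3 h4
        rw [norm_div, norm_mul, norm_mul, norm_mul, norm_pow, norm_pow, norm_pow, norm_pow, mul_div_assoc]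
        refine mul_le_mul_of_nonneg_left ?_ (norm_nonneg _)
        have h5 : 0 < ‖p.2 1‖ := by linarith
        have h6 : 0 < ‖p.2 0‖ := by linarith
        rw [div_le_div_iff₀ (by positivity) h5]
        calc ‖p.2 0‖ ^ m' 0 * ‖p.2 1‖ ^ m' 1 * ‖p.2 1‖
            = ‖p.2 0‖ ^ m' 0 * (1 * ‖p.2 1‖ ^ (m' 1 + 1)) := by ring
          _ ≤ ‖p.2 0‖ ^ m' 0 * (‖p.2 0‖ ^ m 0 * ‖p.2 1‖ ^ m 1) := by
            gcongr
            · exact one_le_pow₀ h3
            · exact h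
      · have h2 := ((tendsto_inv_atTop_zero.comp t0)).const_mul ‖coeff m' H‖
        rw [mul_zero] at h2
        refine squeeze_zero' (Eventually.of_forall fun p => norm_nonneg _) ?_ h2
        filter_upwards [t0.eventually (eventually_ge_atTop 1), t1.eventually (eventually_ge_atTop 1)]
          with p h3 h4
        rw [norm_div, norm_mul, norm_mul, norm_mul, norm_pow, norm_pow, norm_pow, norm_pow, mul_div_assoc]
        refine mul_le_mul_of_nonneg_left ?_ (norm_nonneg _)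
        have h5 : 0 < ‖p.2 1‖ := by linarith
        have h6 : 0 < ‖p.2 0‖ := by linarith
        simp only [Function.comp]
        rw [← one_div, div_le_div_iff₀ (by positivity) h6, h]
        calc ‖p.2 0‖ ^ m' 0 * ‖p.2 1‖ ^ m 1 * ‖p.2 0‖
            = ‖p.2 0‖ ^ (m' 0 + 1) * ‖p.2 1‖ ^ m 1 := by ring
          _ ≤ ‖p.2 0‖ ^ m 0 * ‖p.2 1‖ ^ m 1 := by
            gcongr
            exact h'
          _ = 1 * (‖p.2 0‖ ^ m 0 * ‖p.2 1‖ ^ m 1) := (one_mul _).symm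
  have h2 := tendsto_finsetSum H.support h1
  rw [Finset.sum_ite_eq' H.support m, if_pos hm] at h2
  refine h2.congr fun p => ?_
  rw [eval_two, Finset.sum_div]

/-- lower bound -/
theorem lower (H : MvPolynomial (Fin 2) ℂ) (hH : H ≠ 0) :
    ∃ c : ℝ, 0 < c ∧ ∀ᶠ p in FF, c ≤ ‖eval p.2 H‖ := by
  obtain ⟨m, hm, hl⟩ := exists_lead H hH
  have hc : 0 < ‖coeff m H‖ := norm_pos_iff.2 (mem_support_iff.1 hm)
  refine ⟨‖coeff m H‖ / 2, by positivity, ?_⟩
  have h1 := (lim_lead H m hm hl).norm.eventually (lt_mem_nhds (half_lt_self hc))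
  filter_upwards [h1, t0.eventually (eventually_ge_atTop 1), t1.eventually (eventually_ge_atTop 1)]
    with p h2 h3 h4
  have h2 := h2.le
  rw [norm_div, norm_mul, norm_pow, norm_pow, le_div_iff₀ (by positivity)] at h2
  refine le_trans ?_ h2
  have h5 : 1 ≤ ‖p.2 0‖ ^ m 0 * ‖p.2 1‖ ^ m 1 := one_le_mul_of_one_le_of_one_le (one_le_pow₀ h3) (one_le_pow₀ h4)
  nlinarith

/-- the size of the roots of a polynomial -/
theorem root_bound (N : ℕ) (b : ℕ → ℂ) (w : ℂ) (c M : ℝ) (hc : 0 < c) (hM : 0 ≤ M)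
    (h0 : ∑ j ∈ Finset.range (N + 1), b j * w ^ j = 0) (hN : c ≤ ‖b N‖)
    (hb : ∀ j ∈ Finset.range N, ‖b j‖ ≤ M) : ‖w‖ ≤ 1 + N * M / c := by
  by_cases hw : ‖w‖ ≤ 1
  · have : 0 ≤ N * M / c := by positivity
    linarith
  push Not at hw
  rw [Finset.sum_range_succ] at h0
  have h1 : b N * w ^ N = -∑ j ∈ Finset.range N, b j * w ^ j := by
    rw [eq_neg_iff_add_eq_zero, add_comm]; exact h0
  have h2 : ‖b N‖ * ‖w‖ ^ N ≤ ∑ j ∈ Finset.range N, M * ‖w‖ ^ (N - 1) := by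
    rw [← norm_pow, ← norm_mul, h1, norm_neg]
    refine (norm_sum_le _ _).trans (Finset.sum_le_sum fun j hj => ?_)
    rw [norm_mul, norm_pow]
    have h3 : ‖w‖ ^ j ≤ ‖w‖ ^ (N - 1) := by
      apply pow_le_pow_right₀ hw.le
      have := Finset.mem_range.1 hj
      omega
    exact mul_le_mul (hb j hj) h3 (by positivity) hM
  rw [Finset.sum_const, Finset.card_range, nsmul_eq_mul] at h2
  rcases Nat.eq_zero_or_pos N with hN0 | hN0
  · subst hN0
    simp at h2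
    rw [h2, norm_zero] at hN
    linarith
  have h4 : ‖w‖ ^ N = ‖w‖ ^ (N - 1) * ‖w‖ := by
    rw [← pow_succ]; congr 1; omega
  rw [h4] at h2
  have h5 : 0 < ‖w‖ ^ (N - 1) := by positivity
  have h6 : ‖b N‖ * ‖w‖ ≤ N * M := by
    have : ‖w‖ ^ (N - 1) * (‖b N‖ * ‖w‖) ≤ ‖w‖ ^ (N - 1) * (N * M) := by
      calc _ = ‖b N‖ * (‖w‖ ^ (N - 1) * ‖w‖) := by ring
        _ ≤ _ := h2
        _ = _ := by ring
    exact le_of_mul_le_mul_left this h5
  have h7 : c * ‖w‖ ≤ N * M := (mul_le_mul_of_nonneg_right hN (norm_nonneg _)).trans h6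
  have h8 : ‖w‖ ≤ N * M / c := by
    rw [le_div_iff₀ hc]
    linarith
  linarith

theorem root_bound_inv (N : ℕ) (b : ℕ → ℂ) (w : ℂ) (c M : ℝ) (hc : 0 < c) (hM : 0 ≤ M)
    (h0 : ∑ j ∈ Finset.range (N + 1), b j * w ^ j = 0) (hN : c ≤ ‖b 0‖)
    (hb : ∀ j, ‖b j‖ ≤ M) : w ≠ 0 ∧ ‖w⁻¹‖ ≤ 1 + N * M / c := by
  have hw : w ≠ 0 := by
    intro hw
    rw [hw, Finset.sum_range_succ'] at h0
    simp at h0
    rw [h0, norm_zero] at hN
    linarith
  refine ⟨hw, root_bound N (fun j => b (N - j)) w⁻¹ c M hc hM ?_ (by simpa using hN)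
    (fun j _ => hb _)⟩
  have h1 : ∑ j ∈ Finset.range (N + 1), b (N - j) * w⁻¹ ^ j
      = (w ^ N)⁻¹ * ∑ j ∈ Finset.range (N + 1), b j * w ^ j := by
    rw [← Finset.sum_range_reflect, Finset.mul_sum]
    refine Finset.sum_congr rfl fun j hj => ?_
    have hj' : j ≤ N := by have := Finset.mem_range.1 hj; omega
    have h2 : N - (N + 1 - 1 - j) = j := by omega
    have h3 : N + 1 - 1 - j = N - j := by omega
    rw [h2, h3, inv_pow]
    have h4 : w ^ N = w ^ (N - j) * w ^ j := by rw [← pow_add]; congr 1; omega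
    rw [h4]
    field_simp
  rw [h1, h0, mul_zero]

theorem reg_SS {R a : ℝ} (hR : 1 ≤ R) (h1 : Real.log R ≤ a) (h2 : a ≤ Real.log R ^ 2) {ω : ℂ}
    (hω : ‖ω‖ = 1) {x : Fin 2 → ℂ} (hx : x ∈ reg a R ω) : x ∈ SS R := by
  have ha : 0 ≤ a := (Real.log_nonneg hR).trans h1
  obtain ⟨hx0, hx1⟩ := hx
  have h3 : ‖Complex.I * a‖ = a := by
    rw [norm_mul, Complex.norm_I, one_mul, Complex.norm_real, Real.norm_of_nonneg ha]
  have h4 : ‖(R : ℂ) * ω‖ = R := by
    rw [norm_mul, hω, mul_one, Complex.norm_real, Real.norm_of_nonneg (by linarith)]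
  have h5 := abs_norm_sub_norm_le (x 0) (Complex.I * a)
  have h6 := abs_norm_sub_norm_le (x 1) (R * ω)
  rw [h3] at h5
  rw [h4] at h6
  have h7 := abs_le.1 (h5.trans hx0.le)
  have h8 := abs_le.1 (h6.trans hx1.le)
  refine ⟨?_, ?_, ?_, ?_⟩ <;> nlinarith

/-- bounds for one algebraic function -/
theorem one {K : Type} [Field K] [Algebra ℂ K] (ζ : Fin 2 → K) (hζ : AlgebraicIndependent ℂ ζ)
    {κ : Type} (f : κ → K) (k : κ) (hk : Al (Set.range ζ) (f k)) (h0 : f k ≠ 0) :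
    ∃ C : ℕ, ∀ᶠ p in FF, ∀ w : κ → ℂ, Sum.elim p.2 w ∈ Pt (Sum.elim ζ f) →
      w k ≠ 0 ∧ ‖w k‖ ≤ p.1 ^ C ∧ ‖(w k)⁻¹‖ ≤ p.1 ^ C := by
  obtain ⟨A, ⟨b, hb⟩, hA⟩ := Pool.Agent.Q206.EG.alg_poly ζ (f k) hk
  have hA0 : A ≠ 0 := by
    rintro rfl
    simp at hb
  -- remove the powers of `X`
  obtain ⟨r, hr1, hr2⟩ : ∃ r, A.coeff r ≠ 0 ∧ ∀ d < r, A.coeff d = 0 :=
    ⟨A.natTrailingDegree, Polynomial.trailingCoeff_nonzero_iff_nonzero.2 hA0,
      fun d hd => Polynomial.coeff_eq_zero_of_lt_natTrailingDegree hd⟩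
  obtain ⟨B, hB⟩ : Polynomial.X ^ r ∣ A := Polynomial.X_pow_dvd_iff.2 hr2
  have hB0 : B.coeff 0 ≠ 0 := by
    have h3 := Polynomial.coeff_X_pow_mul B r 0
    rw [zero_add, ← hB] at h3
    rwa [h3] at hr1
  have hBne : B ≠ 0 := by rintro rfl; simp at hB0
  have hBr : (B.map (aeval ζ : MvPolynomial (Fin 2) ℂ →ₐ[ℂ] K).toRingHom).eval (f k) = 0 := by
    rw [hB, Polynomial.map_mul, Polynomial.eval_mul, Polynomial.map_pow, Polynomial.map_X,
      Polynomial.eval_pow, Polynomial.eval_X] at hA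
    exact (mul_eq_zero.1 hA).resolve_left (pow_ne_zero _ h0)
  set N := B.natDegree with hN
  have hlead : B.coeff N ≠ 0 := Polynomial.leadingCoeff_ne_zero.2 hBne
  have hNpos : 0 < N := by
    by_contra hN0
    have hN1 : B.natDegree = 0 := by omega
    rw [Polynomial.eq_C_of_natDegree_eq_zero hN1, Polynomial.map_C, Polynomial.eval_C] at hBr
    have h1 : (aeval ζ : MvPolynomial (Fin 2) ℂ →ₐ[ℂ] K) (B.coeff 0) = 0 := hBr
    exact hB0 ((map_eq_zero_iff _ (algebraicIndependent_iff_injective_aeval.1 hζ)).1 h1)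
  -- the relation
  set G : MvPolynomial (Fin 2 ⊕ κ) ℂ := ∑ j ∈ Finset.range (N + 1),
    rename Sum.inl (B.coeff j) * X (Sum.inr k) ^ j with hG
  have hG0 : aeval (Sum.elim ζ f) G = 0 := by
    rw [hG, map_sum, ← hBr, Polynomial.eval_map, Polynomial.eval₂_eq_sum_range]
    refine Finset.sum_congr rfl fun j _ => ?_
    rw [map_mul, map_pow, aeval_rename, aeval_X, Sum.elim_comp_inl, Sum.elim_inr]
    rfl
  have hrel : ∀ (x : Fin 2 → ℂ) (w : κ → ℂ), Sum.elim x w ∈ Pt (Sum.elim ζ f) →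
      ∑ j ∈ Finset.range (N + 1), eval x (B.coeff j) * w k ^ j = 0 := by
    intro x w hw
    have h1 := hw G hG0
    rw [hG, map_sum] at h1
    rw [← h1]
    refine Finset.sum_congr rfl fun j _ => ?_
    rw [map_mul, map_pow, eval_rename, eval_X, Sum.elim_comp_inl, Sum.elim_inr]
  -- bounds of the coefficients
  obtain ⟨c1, hc1, hl1⟩ := lower (B.coeff N) hlead
  obtain ⟨c2, hc2, hl2⟩ := lower (B.coeff 0) hB0
  choose D hD using fun j : ℕ => upper (B.coeff j)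
  set D0 := ∑ j ∈ Finset.range (N + 1), D j with hD0
  have hup : ∀ᶠ p in FF, ∀ j ∈ Finset.range (N + 1), ‖eval p.2 (B.coeff j)‖ ≤ p.1 ^ D0 := by
    rw [Filter.eventually_all_finset]
    intro j hj
    filter_upwards [hD j, evR 1] with p h1 h2
    exact h1.trans (pow_le_pow_right₀ h2 (Finset.single_le_sum (f := D) (fun _ _ => Nat.zero_le _) hj))
  refine ⟨D0 + 1, ?_⟩
  filter_upwards [hl1, hl2, hup, evR (1 + N / c1), evR (1 + N / c2), evR 1] with p h1 h2 h3 h4 h5 h6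
  intro w hw
  have hr := hrel p.2 w hw
  have hM : (1 : ℝ) ≤ p.1 ^ D0 := one_le_pow₀ h6
  have hall : ∀ j, ‖if j ∈ Finset.range (N + 1) then eval p.2 (B.coeff j) else 0‖ ≤ p.1 ^ D0 := by
    intro j
    split_ifs with hj
    · exact h3 j hj
    · rw [norm_zero]; linarith
  have hr' : ∑ j ∈ Finset.range (N + 1),
      (if j ∈ Finset.range (N + 1) then eval p.2 (B.coeff j) else 0) * w k ^ j = 0 := by
    rw [← hr]
    exact Finset.sum_congr rfl fun j hj => by rw [if_pos hj]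
  have hb1 := root_bound N _ (w k) c1 (p.1 ^ D0) hc1 (by linarith) hr'
    (by rw [if_pos (by simp)]; exact h1) (fun j _ => hall j)
  have hb2 := root_bound_inv N _ (w k) c2 (p.1 ^ D0) hc2 (by linarith) hr'
    (by rw [if_pos (by simp)]; exact h2) hall
  have hfin : ∀ c : ℝ, 0 < c → 1 + N / c ≤ p.1 → 1 + N * p.1 ^ D0 / c ≤ p.1 ^ (D0 + 1) := by
    intro c hc h
    rw [pow_succ]
    have h7 : p.1 ^ D0 * (1 + N / c) ≤ p.1 ^ D0 * p.1 := by gcongr
    have h8 : N * p.1 ^ D0 / c = p.1 ^ D0 * (N / c) := by ring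
    rw [h8]
    linarith
  exact ⟨hb2.1, hb1.trans (hfin c1 hc1 h4), hb2.2.trans (hfin c2 hc2 h5)⟩

/-- **job BND** -/
theorem bnd : S_bnd := by
  intro K _ _ ζ hζ
  refine ⟨?_, ?_⟩
  · intro κ _ f hal hf0
    have := Fintype.ofFinite κ
    choose C hC using fun k => one ζ hζ f k (hal k) (hf0 k)
    have hall : ∀ᶠ p in FF, ∀ k, ∀ w : κ → ℂ, Sum.elim p.2 w ∈ Pt (Sum.elim ζ f) →
        w k ≠ 0 ∧ ‖w k‖ ≤ p.1 ^ C k ∧ ‖(w k)⁻¹‖ ≤ p.1 ^ C k := eventually_all.2 hC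
    obtain ⟨R₀, hR₀⟩ := ev_iff.1 hall
    refine ⟨((∑ k, C k : ℕ) : ℝ), max R₀ 1, ?_⟩
    intro R a hR h1 h2 ω hω x hx w hw k
    have hR1 : 1 ≤ R := (le_max_right _ _).trans hR
    obtain ⟨h3, h4, h5⟩ := hR₀ R ((le_max_left _ _).trans hR) x (reg_SS hR1 h1 h2 hω hx) k w hw
    simp only at h4 h5
    have h6 : R ^ C k ≤ R ^ (∑ k, C k) :=
      pow_le_pow_right₀ hR1 (Finset.single_le_sum (f := C) (fun _ _ => Nat.zero_le _) (Finset.mem_univ k))
    rw [Real.rpow_neg (by linarith), Real.rpow_natCast]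
    refine ⟨?_, h4.trans h6⟩
    rw [norm_inv] at h5
    have h7 : 0 < ‖w k‖ := norm_pos_iff.2 h3
    exact inv_le_of_inv_le₀ h7 (h5.trans h6)
  · intro H hH
    obtain ⟨c, hc, hl⟩ := lower H hH
    obtain ⟨R₀, hR₀⟩ := ev_iff.1 hl
    refine ⟨max R₀ 1, ?_⟩
    intro R a hR h1 h2 ω hω x hx h0
    have hR1 : 1 ≤ R := (le_max_right _ _).trans hR
    have h3 := hR₀ R ((le_max_left _ _).trans hR) x (reg_SS hR1 h1 h2 hω hx)
    simp only at h3
    rw [h0, norm_zero] at h3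
    linarith

end Pool.Agent.H671.EX
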